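import Mathlib

set_option autoImplicit false

/-! A potential for the sum of the logarithms of sums of exponentials along a path. -/

namespace Pool.Agent.Y952.TP

noncomputable def E (m : ℕ) : ℝ := Real.exp (2 * m)

lemma E_pos (m : ℕ) : 0 < E m := Real.exp_pos _

lemma E_zero : E 0 = 1 := by simp [E]

lemma E_succ (m : ℕ) : E (m + 1) = Real.exp 2 * E m := by
  unfold E
  rw [← Real.exp_add]
  push_cast
  ring_nf

lemma E_mono {a b : ℕ} (h : a ≤ b) : E a ≤ E b := by
  unfold E
  apply Real.exp_le_exp.2
  have : (a : ℝ) ≤ b := by exact_mod_cast h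
  linarith

noncomputable def uu : ℝ → List ℕ → ℝ
  | _, [] => 0
  | A, (y :: l) => y * Real.log (A + l.length) + uu (A + E y) l

lemma G_step {A : ℝ} (hA : 0 ≤ A) {a b : ℕ} (hab : a ≤ b) :
    Real.log (A + E (a + 1)) - Real.log (A + E a) ≤
      Real.log (A + E (b + 1)) - Real.log (A + E b) := by
  have h1 := E_pos a
  have h2 := E_pos b
  have h3 := E_pos (a + 1)
  have h4 := E_pos (b + 1)
  have hm := E_mono hab
  have hc : 1 ≤ Real.exp 2 := Real.one_le_exp (by norm_num)
  have key : (A + E (a + 1)) * (A + E b) ≤ (A + E (b + 1)) * (A + E a) := by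
    rw [E_succ, E_succ]
    have : 0 ≤ A * ((Real.exp 2 - 1) * (E b - E a)) :=
      mul_nonneg hA (mul_nonneg (by linarith) (by linarith))
    nlinarith
  have h5 := Real.log_le_log (by positivity) key
  rw [Real.log_mul (by positivity) (by positivity),
    Real.log_mul (by positivity) (by positivity)] at h5
  linarith

lemma G_le {A : ℝ} (hA : 0 ≤ A) {a b : ℕ} (hab : a ≤ b) :
    Real.log (A + E a) - Real.log (A + 1) ≤
      a * (Real.log (A + E (b + 1)) - Real.log (A + E b)) := by
  induction a with
  | zero => simp [E_zero]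
  | succ a ih =>
    have h1 := ih (by omega)
    have h2 := G_step hA (show a ≤ b by omega)
    push_cast
    linarith

lemma L1 (v : ℕ) : ∀ (l : List ℕ) (A : ℝ), 0 ≤ A → (∀ y ∈ l, y ≤ v) →
    Real.log (A + (l.map E).sum) - Real.log (A + l.length) ≤
      uu (A + E (v + 1)) l - uu (A + E v) l
  | [], A, hA, _ => by simp [uu]
  | y :: l, A, hA, hl => by
    have hy := E_pos y
    have ih := L1 v l (A + E y) (by linarith) (fun z hz => hl z (List.mem_cons_of_mem _ hz))
    have hG := G_le (A := A + l.length) (by positivity) (hl y List.mem_cons_self)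
    have e1 : A + E (v + 1) + E y = A + E y + E (v + 1) := by ring
    have e2 : A + E v + E y = A + E y + E v := by ring
    have e3 : A + E (v + 1) + (l.length : ℝ) = A + l.length + E (v + 1) := by ring
    have e4 : A + E v + (l.length : ℝ) = A + l.length + E v := by ring
    have e5 : A + ((y :: l).map E).sum = A + E y + (l.map E).sum := by
      rw [List.map_cons, List.sum_cons]; ring
    have e6 : A + ((y :: l).length : ℝ) = A + l.length + 1 := by
      rw [List.length_cons]; push_cast; ring
    have e7 : A + E y + (l.length : ℝ) = A + l.length + E y := by ring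
    simp only [uu]
    rw [e1, e2, e3, e4, e5, e6]
    rw [e7] at ih
    linarith

lemma L2 : ∀ (pre : List ℕ) (A : ℝ) (v : ℕ) (post : List ℕ), 0 ≤ A → (∀ y ∈ post, y ≤ v) →
    Real.log (A + (pre.map E).sum + (post.map E).sum) ≤
      uu A (pre ++ (v + 1) :: post) - uu A (pre ++ v :: post)
  | [], A, v, post, hA, hp => by
    have h := L1 v post A hA hp
    simp only [List.nil_append, uu, List.map_nil, List.sum_nil, add_zero]
    push_cast
    linarith
  | p :: pre, A, v, post, hA, hp => by
    have hpp := E_pos p
    have ih := L2 pre (A + E p) v post (by linarith) hp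
    have e1 : A + ((p :: pre).map E).sum + (post.map E).sum =
        A + E p + (pre.map E).sum + (post.map E).sum := by
      rw [List.map_cons, List.sum_cons]; ring
    have e2 : (pre ++ (v + 1) :: post).length = (pre ++ v :: post).length := by simp
    rw [e1]
    simp only [List.cons_append, uu]
    rw [e2]
    linarith

/-- the counts of the letters among the first `t` letters of the word `w` -/
def X (w : ℕ → Fin 8) (t : ℕ) (j : Fin 8) : ℕ := ((Finset.range t).filter (fun s => w s = j)).card

lemma X_succ (w : ℕ → Fin 8) (t : ℕ) (j : Fin 8) :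
    X w (t + 1) j = X w t j + if w t = j then 1 else 0 := by
  unfold X
  rw [Finset.range_add_one, Finset.filter_insert]
  split_ifs with h
  · rw [Finset.card_insert_of_notMem (by simp)]
  · rfl

lemma path (w : ℕ → Fin 8) (t : ℕ) : ∃ l : List ℕ, l.Pairwise (fun a b => b ≤ a) ∧
    (l : Multiset ℕ) = (Finset.univ : Finset (Fin 8)).val.map (X w t) ∧
    ∑ s ∈ Finset.range t, Real.log (∑ j ∈ Finset.univ.erase (w s), E (X w s j)) ≤ uu 0 l := by
  induction t with
  | zero =>
    refine ⟨List.replicate 8 0, ?_, ?_, ?_⟩
    · simp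
    · have : X w 0 = fun _ => 0 := by
        funext j; simp [X]
      rw [this]
      rfl
    · simp [uu, List.replicate]
  | succ t ih =>
    obtain ⟨l, hl1, hl2, hl3⟩ := ih
    set i := w t with hi
    have hmem : X w t i ∈ l := by
      have : X w t i ∈ (l : Multiset ℕ) := by
        rw [hl2]
        exact Multiset.mem_map_of_mem _ (Finset.mem_univ_val i)
      exact this
    obtain ⟨as, bs, hab, hnot⟩ := List.eq_append_cons_of_mem hmem
    have hpw := hl1
    rw [hab, List.pairwise_append] at hpw
    obtain ⟨p1, p2, p3⟩ := hpw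
    rw [List.pairwise_cons] at p2
    have hval : (Finset.univ : Finset (Fin 8)).val = i ::ₘ (Finset.univ.erase i).val := by
      have h1 : (Finset.univ : Finset (Fin 8)) = insert i (Finset.univ.erase i) :=
        (Finset.insert_erase (Finset.mem_univ i)).symm
      conv_lhs => rw [h1]
      exact Finset.insert_val_of_notMem (Finset.notMem_erase i _)
    have hrest : ((as ++ bs : List ℕ) : Multiset ℕ) = (Finset.univ.erase i).val.map (X w t) := by
      have h1 : ((as ++ X w t i :: bs : List ℕ) : Multiset ℕ) =
          X w t i ::ₘ ((as ++ bs : List ℕ) : Multiset ℕ) := by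
        rw [Multiset.cons_coe, Multiset.coe_eq_coe]
        exact List.perm_middle
      rw [hab, h1, hval, Multiset.map_cons] at hl2
      exact (Multiset.cons_inj_right _).1 hl2
    refine ⟨as ++ (X w t i + 1) :: bs, ?_, ?_, ?_⟩
    · rw [List.pairwise_append, List.pairwise_cons]
      refine ⟨p1, ⟨fun y hy => (p2.1 y hy).trans (Nat.le_succ _), p2.2⟩, ?_⟩
      intro a ha y hy
      rw [List.mem_cons] at hy
      rcases hy with rfl | hy
      · have h1 := p3 a ha _ List.mem_cons_self
        have h2 : a ≠ X w t i := fun h => hnot (h ▸ ha)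
        omega
      · exact p3 a ha y (List.mem_cons_of_mem _ hy)
    · have h1 : ((as ++ (X w t i + 1) :: bs : List ℕ) : Multiset ℕ) =
          (X w t i + 1) ::ₘ ((as ++ bs : List ℕ) : Multiset ℕ) := by
        rw [Multiset.cons_coe, Multiset.coe_eq_coe]
        exact List.perm_middle
      rw [h1, hrest, hval, Multiset.map_cons]
      have h2 : X w (t + 1) i = X w t i + 1 := by
        rw [X_succ, if_pos rfl]
      rw [h2]
      congr 1
      apply Multiset.map_congr rfl
      intro j hj
      have hj' : j ≠ i := by
        have := Finset.mem_erase.1 (Finset.mem_def.2 hj)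
        exact this.1
      rw [X_succ, if_neg (fun h => hj' h.symm), add_zero]
    · rw [Finset.sum_range_succ]
      have h1 := L2 as 0 (X w t i) bs le_rfl p2.1
      have h2 : (0 : ℝ) + (as.map E).sum + (bs.map E).sum =
          ∑ j ∈ Finset.univ.erase i, E (X w t j) := by
        have h3 : (((as ++ bs : List ℕ) : Multiset ℕ).map E).sum =
            (((Finset.univ.erase i).val.map (X w t)).map E).sum := by rw [hrest]
        rw [Multiset.map_coe, Multiset.sum_coe, List.map_append, List.sum_append,
          Multiset.map_map] at h3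
        rw [zero_add, h3]
        rfl
      rw [h2] at h1
      rw [hab] at hl3
      linarith

lemma uu_full (μ : ℕ) (hμ : 6 ≤ μ) : uu 0 (List.replicate 8 μ) < 16 * (μ : ℝ) ^ 2 := by
  have hμR : (6 : ℝ) ≤ μ := by exact_mod_cast hμ
  set e := E μ with he
  have he0 : 0 < e := E_pos μ
  have hE : (100000 : ℝ) ≤ e := by
    have h1 : E 6 ≤ e := E_mono hμ
    have h2 : (100000 : ℝ) ≤ E 6 := by
      unfold E
      have h3 : (2.7 : ℝ) ≤ Real.exp 1 := by
        have := Real.exp_one_gt_d9
        linarith
      have h4 : Real.exp (2 * (6 : ℕ)) = (Real.exp 1) ^ 12 := by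
        rw [← Real.exp_nat_mul]
        norm_num
      rw [h4]
      calc (100000 : ℝ) ≤ 2.7 ^ 12 := by norm_num
        _ ≤ _ := by gcongr
    linarith
  have hlog : Real.log e = 2 * μ := by rw [he]; unfold E; exact Real.log_exp _
  have hr : ∀ r c : ℝ, 1 ≤ r → c ≤ 6 * r → 0 ≤ c → Real.log (r * e + c) ≤
      Real.log r + Real.log (e + 6) := by
    intro r c h1 h2 h3
    rw [← Real.log_mul (by linarith) (by linarith)]
    apply Real.log_le_log (by positivity)
    nlinarith
  have hfin : Real.log 7 + Real.log 5040 + 7 * Real.log (e + 6) < 16 * μ := by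
    have h1 : Real.log (7 * 5040 * (e + 6) ^ 7) < Real.log (e ^ 8) := by
      apply Real.log_lt_log (by positivity)
      have h2 : e + 6 ≤ 1.0001 * e := by linarith
      calc 7 * 5040 * (e + 6) ^ 7 ≤ 7 * 5040 * (1.0001 * e) ^ 7 := by gcongr
        _ = (7 * 5040 * 1.0001 ^ 7) * e ^ 7 := by ring
        _ < 100000 * e ^ 7 := by
            apply mul_lt_mul_of_pos_right _ (by positivity)
            norm_num
        _ ≤ e * e ^ 7 := by gcongr
        _ = e ^ 8 := by ring
    rw [Real.log_pow, Real.log_mul (by norm_num) (by positivity), Real.log_mul (by norm_num)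
      (by norm_num), Real.log_pow, hlog] at h1
    push_cast at h1
    linarith
  have h5040 : Real.log 5040 = Real.log 1 + Real.log 2 + Real.log 3 + Real.log 4 + Real.log 5 +
      Real.log 6 + Real.log 7 := by
    rw [← Real.log_mul (by norm_num) (by norm_num), ← Real.log_mul (by norm_num) (by norm_num),
      ← Real.log_mul (by norm_num) (by norm_num), ← Real.log_mul (by norm_num) (by norm_num),
      ← Real.log_mul (by norm_num) (by norm_num), ← Real.log_mul (by norm_num) (by norm_num)]
    norm_num
  have a1 := hr 1 6 le_rfl (by norm_num) (by norm_num)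
  have a2 := hr 2 5 (by norm_num) (by norm_num) (by norm_num)
  have a3 := hr 3 4 (by norm_num) (by norm_num) (by norm_num)
  have a4 := hr 4 3 (by norm_num) (by norm_num) (by norm_num)
  have a5 := hr 5 2 (by norm_num) (by norm_num) (by norm_num)
  have a6 := hr 6 1 (by norm_num) (by norm_num) (by norm_num)
  have a7 := hr 7 0 (by norm_num) (by norm_num) (by norm_num)
  have hval : uu 0 (List.replicate 8 μ) = μ * (Real.log 7 + Real.log (1 * e + 6) +
      Real.log (2 * e + 5) + Real.log (3 * e + 4) + Real.log (4 * e + 3) + Real.log (5 * e + 2) +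
      Real.log (6 * e + 1) + Real.log (7 * e + 0)) := by
    simp only [List.replicate, uu, List.length_cons, List.length_nil, ← he]
    push_cast
    have b0 : (0 : ℝ) + 7 = 7 := by norm_num
    have b1 : (0 : ℝ) + e + 6 = 1 * e + 6 := by ring
    have b2 : (0 : ℝ) + e + e + 5 = 2 * e + 5 := by ring
    have b3 : (0 : ℝ) + e + e + e + 4 = 3 * e + 4 := by ring
    have b4 : (0 : ℝ) + e + e + e + e + 3 = 4 * e + 3 := by ring
    have b5 : (0 : ℝ) + e + e + e + e + e + 2 = 5 * e + 2 := by ring
    have b6 : (0 : ℝ) + e + e + e + e + e + e + 1 = 6 * e + 1 := by ring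
    have b7 : (0 : ℝ) + e + e + e + e + e + e + e + 0 = 7 * e + 0 := by ring
    rw [b0, b1, b2, b3, b4, b5, b6, b7]
    ring
  rw [hval]
  have hsum : Real.log 7 + Real.log (1 * e + 6) +
      Real.log (2 * e + 5) + Real.log (3 * e + 4) + Real.log (4 * e + 3) + Real.log (5 * e + 2) +
      Real.log (6 * e + 1) + Real.log (7 * e + 0) < 16 * μ := by linarith
  have hμ0 : (0 : ℝ) < μ := by linarith
  calc (μ : ℝ) * _ < μ * (16 * μ) := mul_lt_mul_of_pos_left hsum hμ0
    _ = 16 * (μ : ℝ) ^ 2 := by ring

end Pool.Agent.Y952.TP
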