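import Pool.Agent.H947R2.TP.All
import Pool.Agent.Y952.TP.C6L
import Pool.Agent.Y952.TP.Pot

set_option autoImplicit false

/-! The estimate for lattice tilings with eight blocks of `μ ≥ 6` coordinates. -/

open MeasureTheory Filter Topology Set
open scoped ENNReal

namespace Pool.Agent.Y952.TP

open H947TP

theorem main_core (hP1 : St_P1) (hP2 : St_P2) (hP3 : St_P3) (hE2 : St_E2) (hV2 : St_V2)
    (hV3 : St_V3) (hL7 : St_L7) (hG : St_G1 8) (d : ℕ) (hd2 : 2 ≤ d) (b : Fin d → Fin 8)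
    (hcnt : ∀ j, 1 ≤ cnt b j) (δ G : ℝ) (hδ0 : 0 < δ) (hδ1 : δ ≤ 1 / 2) (hG0 : 0 ≤ G)
    (hGlt : G < (d : ℝ) / 2) (hS : ∀ L : AddSubgroup (Fin d → ℝ), IsTile L → SS b δ L ≤ G) :
    ∃ K : Set (Fin d → ℝ), Convex ℝ K ∧ IsCompact K ∧
      (interior K).Nonempty ∧ (∀ x ∈ K, -x ∈ K) ∧ deltaL K < deltaT K := by
  obtain ⟨f, hf⟩ := hG
  have hdR : (0 : ℝ) < d := by exact_mod_cast (by omega : 0 < d)
  set G' : ℝ := (G + d / 2) / 2 with hG'
  have hG'1 : G < G' := by rw [hG']; linarith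
  have hG'2 : G' < d / 2 := by rw [hG']; linarith
  have hG'0 : 0 ≤ G' := by linarith
  obtain ⟨ε0, hε0, hL⟩ := hL7 d 8 b δ G G' hδ0 (by linarith) hd2 (by norm_num) hG'0 hG'1 hS
  -- choose ε
  set ε : ℝ := min (ε0 / 2) (min δ (((d : ℝ) / 2 - G') / (G' * d + 1))) with hε
  have hden : 0 < G' * d + 1 := by positivity
  have hεpos : 0 < ε := by
    refine lt_min (by linarith) (lt_min hδ0 (div_pos (by linarith) hden))
  have hεε0 : ε < ε0 := lt_of_le_of_lt (min_le_left _ _) (by linarith)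
  have hεδ : ε ≤ δ := (min_le_right _ _).trans (min_le_left _ _)
  have hε3 : ε ≤ ((d : ℝ) / 2 - G') / (G' * d + 1) := (min_le_right _ _).trans (min_le_right _ _)
  have hkey : G' * d * ε / 2 < d / 2 - G' := by
    rw [le_div_iff₀ hden] at hε3
    have : 0 ≤ G' * d * ε := by positivity
    nlinarith
  set s : ℝ := 1 / (1 + ε / 2) with hs
  have hs1 : s * (1 + ε / 2) = 1 := by rw [hs]; field_simp
  have hspos : 0 < s := by rw [hs]; positivity
  have hsle : s ≤ 1 := by rw [hs]; rw [div_le_one (by positivity)]; linarith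
  obtain ⟨hsd0, hsd⟩ := key_ineq (by omega) hG'0 hεpos hs1 hkey
  obtain ⟨hconv, hcomp, hint, hsymm, hvol0, hvolt⟩ :=
    hP2 d 8 b δ ε hδ0 (by linarith) hεpos hd2 (by norm_num)
  refine ⟨body b δ ε, hconv, hcomp, hint, hsymm, ?_⟩
  have hpack := hP3 d 8 b δ ε hδ0 (by linarith) hεpos hd2 (by norm_num)
  -- lattice packings
  have hL1 : deltaL (body b δ ε) ≤ volume (body b δ ε) / ENNReal.ofReal (1 - G' * ε) := by
    unfold deltaL
    refine iSup_le fun X => iSup_le fun hX => iSup_le fun hXp => ?_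
    obtain ⟨bs, rfl⟩ := hX
    have hsep := (hpack _).1 hXp
    have hcar : ((latGroup bs : AddSubgroup (Fin d → ℝ)) : Set (Fin d → ℝ)) =
        {x | ∃ c : Fin d → ℤ, x = ∑ i, (c i : ℝ) • bs i} := rfl
    rw [← hcar] at hsep ⊢
    obtain ⟨F, hFm, hFb, hFd, hFv⟩ := hL ε hεpos hεε0 (latGroup bs) (by
      intro v hv hv0
      have := hsep v hv 0 (latGroup bs).zero_mem hv0
      simpa using this)
    have hpos1 : 0 < 1 - G' * ε := lt_trans hsd0 hsd
    have hF0 : volume F ≠ 0 := by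
      intro h0
      rw [h0] at hFv
      have := ENNReal.ofReal_pos.2 hpos1
      exact absurd hFv (not_le.2 this)
    refine (hV2 d _ F (latGroup bs) (by omega) hcomp hFm hFb hF0 hFd).trans ?_
    exact ENNReal.div_le_div_left hFv _
  -- the non-lattice packing
  set τ : (Fin d → ℤ) → (Fin d → ℝ) := fun Z l => s * tau b f Z l with hτ
  have hsepτ : ∀ Z Z' : Fin d → ℤ, Z ≠ Z' → Sep b δ ε (τ Z - τ Z') := by
    intro Z Z' hZ
    have := hE2 d 8 b f δ ε s hf (fun j => le_trans (by omega) (hcnt j)) hδ0 (by linarith) hεpos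
      hεδ hd2 (by norm_num) hs1 Z Z' hZ
    exact this
  have hinj : Function.Injective τ := by
    intro Z Z' h
    by_contra hne
    obtain ⟨k, hk⟩ := hsepτ Z Z' hne
    rw [h, sub_self] at hk
    unfold Nk at hk
    rw [(hP1 d 8 b δ k hδ0 (by linarith) hd2 (by norm_num)).2.2.2.1] at hk
    simp at hk
    linarith
  have hpk : IsPacking (body b δ ε) (range τ) := by
    rw [hpack]
    rintro _ ⟨Z, rfl⟩ _ ⟨Z', rfl⟩ hne
    exact hsepτ Z Z' (fun h => hne (by rw [h]))
  have hT1 : volume (body b δ ε) / ENNReal.ofReal (s ^ d) ≤ deltaT (body b δ ε) := by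
    have h1 := hV3 d (body b δ ε) s 1 τ (by omega) hcomp hconv hspos (by
      intro Z i
      have : τ Z i - s * Z i = s * (if f (par b Z) (b i) then 1 / 2 else 0) := by
        simp only [hτ, tau]; ring
      rw [this, abs_mul, abs_of_pos hspos]
      have h2 : |(if f (par b Z) (b i) then (1 / 2 : ℝ) else 0)| ≤ 1 := by
        split_ifs <;> norm_num
      calc s * |(if f (par b Z) (b i) then (1 / 2 : ℝ) else 0)| ≤ 1 * 1 := by gcongr
        _ = 1 := by norm_num) hinj hpk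
    refine h1.trans ?_
    unfold deltaT
    exact le_iSup_of_le (range τ) (le_iSup_of_le hpk le_rfl)
  refine lt_of_le_of_lt hL1 (lt_of_lt_of_le ?_ hT1)
  have hlt : ENNReal.ofReal (s ^ d) < ENNReal.ofReal (1 - G' * ε) := by
    rw [ENNReal.ofReal_lt_ofReal_iff (lt_trans hsd0 hsd)]
    exact hsd
  exact ENNReal.div_lt_div_left hvol0 hvolt hlt


/-- the letters of the order -/
def wd {D : ℕ} (b : Fin D → Fin 8) (σ : Fin D ≃ Fin D) (s : ℕ) : Fin 8 :=
  if h : s < D then b (σ.symm ⟨s, h⟩) else 0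

lemma wd_apply {D : ℕ} (b : Fin D → Fin 8) (σ : Fin D ≃ Fin D) (k : Fin D) :
    wd b σ (σ k) = b k := by
  unfold wd
  rw [dif_pos (σ k).2]
  simp

lemma before_eq {D : ℕ} (b : Fin D → Fin 8) (σ : Fin D ≃ Fin D) (k : Fin D) (j : Fin 8) :
    before b σ k j = X (wd b σ) (σ k) j := by
  classical
  unfold before X
  refine Finset.card_bij (fun l _ => ((σ l : Fin D) : ℕ)) ?_ ?_ ?_
  · intro l hl
    rw [Finset.mem_filter] at hl
    rw [Finset.mem_filter, Finset.mem_range, wd_apply]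
    exact ⟨hl.2.2, hl.2.1⟩
  · intro l _ l' _ h
    exact σ.injective (Fin.ext h)
  · intro s hs
    rw [Finset.mem_filter, Finset.mem_range] at hs
    have hsD : s < D := hs.1.trans (σ k).2
    refine ⟨σ.symm ⟨s, hsD⟩, ?_, by simp⟩
    rw [Finset.mem_filter]
    refine ⟨Finset.mem_univ _, ?_, ?_⟩
    · have h2 := hs.2
      unfold wd at h2
      rwa [dif_pos hsD] at h2
    · rw [Equiv.apply_symm_apply]
      exact hs.1

lemma cnt_eq {D : ℕ} (b : Fin D → Fin 8) (σ : Fin D ≃ Fin D) (j : Fin 8) :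
    cnt b j = X (wd b σ) D j := by
  classical
  unfold cnt X
  refine Finset.card_bij (fun l _ => ((σ l : Fin D) : ℕ)) ?_ ?_ ?_
  · intro l hl
    rw [Finset.mem_filter] at hl
    rw [Finset.mem_filter, Finset.mem_range, wd_apply]
    exact ⟨(σ l).2, hl.2⟩
  · intro l _ l' _ h
    exact σ.injective (Fin.ext h)
  · intro s hs
    rw [Finset.mem_filter, Finset.mem_range] at hs
    refine ⟨σ.symm ⟨s, hs.1⟩, ?_, by simp⟩
    rw [Finset.mem_filter]
    refine ⟨Finset.mem_univ _, ?_⟩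
    have h2 := hs.2
    unfold wd at h2
    rwa [dif_pos hs.1] at h2

theorem SS_le (h3 : St_C3) (hC4 : St_C4) (hP1 : St_P1) (hB3 : St_B3) (μ D : ℕ)
    (b : Fin D → Fin 8) (δ : ℝ) (L : AddSubgroup (Fin D → ℝ)) (hμ : 1 ≤ μ)
    (hcnt : ∀ j, cnt b j = μ) (hδ : 0 < δ) (hδ' : δ ≤ 1 / 2) (hL : IsTile L) :
    SS b δ L ≤ uu 0 (List.replicate 8 μ) / (4 * μ) + D * (D * δ) := by
  classical
  obtain ⟨σ, hσ⟩ := h3 D L hL
  have hμ0 : (0 : ℝ) < μ := by exact_mod_cast hμ
  have hterm : ∀ k, Ex L k (Phi b δ k) ≤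
      Real.log (∑ j ∈ Finset.univ.erase (b k), E (X (wd b σ) (σ k) j)) / (4 * μ) + D * δ := by
    intro k
    have h := C6L hC4 hP1 hB3 D 8 μ b δ L σ k (by norm_num) hμ (fun j => (hcnt j).ge) hδ hδ' hL
      (hσ k).1 (hσ k).2
    refine h.trans (le_of_eq ?_)
    congr 3
    refine Finset.sum_congr rfl fun j _ => ?_
    unfold E
    rw [← before_eq, hcnt j]
    congr 1
    field_simp
  obtain ⟨l, -, hl2, hl3⟩ := path (wd b σ) D
  have hl : l = List.replicate 8 μ := by
    have hx : X (wd b σ) D = fun _ => μ := by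
      funext j
      rw [← cnt_eq, hcnt]
    rw [hx] at hl2
    rw [List.eq_replicate_iff]
    constructor
    · have := congrArg Multiset.card hl2
      simpa using this
    · intro y hy
      have h1 : y ∈ (l : Multiset ℕ) := hy
      rw [hl2, Multiset.mem_map] at h1
      obtain ⟨_, _, h⟩ := h1
      exact h.symm
  rw [hl] at hl3
  have hsum : ∑ k : Fin D, Real.log (∑ j ∈ Finset.univ.erase (b k), E (X (wd b σ) (σ k) j)) =
      ∑ s ∈ Finset.range D,
        Real.log (∑ j ∈ Finset.univ.erase (wd b σ s), E (X (wd b σ) s j)) := by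
    rw [Finset.sum_range (fun s => Real.log (∑ j ∈ Finset.univ.erase (wd b σ s),
      E (X (wd b σ) s j)))]
    rw [← Equiv.sum_comp σ (fun t : Fin D => Real.log (∑ j ∈ Finset.univ.erase (wd b σ t),
      E (X (wd b σ) t j)))]
    refine Finset.sum_congr rfl fun k _ => ?_
    rw [wd_apply]
  unfold SS
  have h1 := Finset.sum_le_sum (fun k (_ : k ∈ (Finset.univ : Finset (Fin D))) => hterm k)
  rw [Finset.sum_add_distrib, ← Finset.sum_div, hsum] at h1
  simp only [Finset.sum_const, Finset.card_univ, Fintype.card_fin, nsmul_eq_mul] at h1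
  have h2 : (∑ s ∈ Finset.range D,
        Real.log (∑ j ∈ Finset.univ.erase (wd b σ s), E (X (wd b σ) s j))) / (4 * μ) ≤
      uu 0 (List.replicate 8 μ) / (4 * μ) := div_le_div_of_nonneg_right hl3 (by positivity)
  linarith

theorem main48 (μ : ℕ) (hμ : 6 ≤ μ) : ∃ K : Set (Fin (8 * μ) → ℝ), Convex ℝ K ∧ IsCompact K ∧
      (interior K).Nonempty ∧ (∀ x ∈ K, -x ∈ K) ∧ deltaL K < deltaT K := by
  have hcnt : ∀ j, cnt (blk (8 * μ)) j = μ := by
    have h1 : ∀ j, μ ≤ cnt (blk (8 * μ)) j := by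
      intro j
      have := cnt_blk (8 * μ) j
      omega
    have h2 : ∑ j, cnt (blk (8 * μ)) j = 8 * μ := by
      classical
      unfold cnt
      rw [← Finset.card_eq_sum_card_fiberwise (fun x _ => Finset.mem_univ _)]
      simp
    intro j
    by_contra hne
    have h3 : μ < cnt (blk (8 * μ)) j := lt_of_le_of_ne (h1 j) (Ne.symm hne)
    have h4 : ∑ _j : Fin 8, μ < ∑ j, cnt (blk (8 * μ)) j :=
      Finset.sum_lt_sum (fun j _ => h1 j) ⟨j, Finset.mem_univ _, h3⟩
    rw [h2] at h4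
    simp at h4
  have hμR : (6 : ℝ) ≤ μ := by exact_mod_cast hμ
  set V : ℝ := uu 0 (List.replicate 8 μ) / (4 * μ) with hV
  have hVlt : V < 4 * μ := by
    rw [hV, div_lt_iff₀ (by positivity)]
    have := uu_full μ hμ
    nlinarith
  set d : ℝ := ((8 * μ : ℕ) : ℝ) with hd
  have hd8 : d = 8 * μ := by rw [hd]; push_cast; ring
  set gap : ℝ := d / 2 - V with hgap
  have hgap0 : 0 < gap := by rw [hgap, hd8]; linarith
  have hd0 : 0 < d := by rw [hd8]; linarith
  set δ : ℝ := min (1 / 2) (gap / (2 * (d * d))) with hδ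
  have hδ0 : 0 < δ := lt_min (by norm_num) (by positivity)
  have hδ1 : δ ≤ 1 / 2 := min_le_left _ _
  have hδ2 : d * (d * δ) ≤ gap / 2 := by
    have h : δ ≤ gap / (2 * (d * d)) := min_le_right _ _
    have h3 : d * (d * δ) ≤ d * (d * (gap / (2 * (d * d)))) := by gcongr
    refine h3.trans (le_of_eq ?_)
    field_simp
  refine main_core P1 (P2 P1) (P3 P1) (E2 E1 P1) (V2 V1) (V3 V1) allL7 G1 (8 * μ) (by omega)
    (blk (8 * μ)) (fun j => by rw [hcnt j]; omega) δ (max 0 (V + d * (d * δ))) hδ0 hδ1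
    (le_max_left _ _) (max_lt (by linarith) (by linarith)) ?_
  intro L hL
  refine le_max_of_le_right ?_
  exact SS_le (C3 allB5 B3 C1 (C2 B3)) C4 P1 B3 μ (8 * μ) (blk (8 * μ)) δ L (by omega) hcnt
    hδ0 hδ1 hL

end Pool.Agent.Y952.TP
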