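import Pool.Agent.H947R2.TP.All

set_option autoImplicit false

/-! The main theorem of `H947R2/TP` for `d = 64`, `65` and `d ≥ 72`. -/

open MeasureTheory Filter Topology Set
open scoped ENNReal

namespace Pool.Agent.Y952.TP

open H947TP

theorem main_of64 (hP1 : St_P1) (hP2 : St_P2) (hP3 : St_P3) (hE2 : St_E2) (hV2 : St_V2)
    (hV3 : St_V3) (hC7 : St_C7) (hL7 : St_L7) (hG : St_G1 8) (hlog : Real.log 7 < 1.946) :
    ∀ d : ℕ, (d = 64 ∨ d = 65 ∨ 72 ≤ d) → ∃ K : Set (Fin d → ℝ), Convex ℝ K ∧ IsCompact K ∧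
      (interior K).Nonempty ∧ (∀ x ∈ K, -x ∈ K) ∧ deltaL K < deltaT K := by
  intro d hd
  obtain ⟨f, hf⟩ := hG
  set b := blk d with hb
  set μ : ℕ := d / 8 with hμ
  have hμ8 : 8 ≤ μ := by omega
  have hdμ : d ≤ 8 * μ + 7 := by omega
  have hcnt : ∀ j, μ ≤ cnt b j := fun j => cnt_blk d j
  have hd2 : 2 ≤ d := by omega
  have hdR : (0 : ℝ) < d := by exact_mod_cast (by omega : 0 < d)
  have hμR : (8 : ℝ) ≤ μ := by exact_mod_cast hμ8
  have hsq : (d : ℝ) * 1.946 < 2 * (μ : ℝ) ^ 2 := by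
    rcases hd with h | h | h
    · have h8 : μ = 8 := by omega
      rw [h, h8]; norm_num
    · have h8 : μ = 8 := by omega
      rw [h, h8]; norm_num
    · have h9 : 9 ≤ μ := by omega
      have h9' : (9 : ℝ) ≤ μ := by exact_mod_cast h9
      have hdμR : (d : ℝ) ≤ 8 * μ + 7 := by exact_mod_cast hdμ
      nlinarith
  -- the gap
  set gap : ℝ := (μ : ℝ) / 2 - d * (Real.log 7 / (4 * μ)) with hgap
  have hlog0 : 0 < Real.log 7 := Real.log_pos (by norm_num)
  have hgap0 : 0 < gap := by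
    rw [hgap]
    have h4 : (0 : ℝ) < 4 * μ := by linarith
    have : (d : ℝ) * (Real.log 7 / (4 * μ)) = d * Real.log 7 / (4 * μ) := by ring
    rw [this, sub_pos, div_lt_iff₀ h4]
    have h5 : (d : ℝ) * Real.log 7 ≤ d * 1.946 :=
      mul_le_mul_of_nonneg_left hlog.le hdR.le
    nlinarith
  set δ : ℝ := min (1 / 2) (gap / (2 * (d * d))) with hδ
  have hδ0 : 0 < δ := lt_min (by norm_num) (by positivity)
  have hδ1 : δ ≤ 1 / 2 := min_le_left _ _
  have hδ2 : (d : ℝ) * (d * δ) ≤ gap / 2 := by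
    have : δ ≤ gap / (2 * (d * d)) := min_le_right _ _
    have h3 : (d : ℝ) * (d * δ) ≤ d * (d * (gap / (2 * (d * d)))) := by gcongr
    refine h3.trans (le_of_eq ?_)
    field_simp
  set G : ℝ := ((d : ℝ) - μ) / 2 + d * (Real.log 7 / (4 * μ)) + d * (d * δ) with hGdef
  have hGlt : G < (d : ℝ) / 2 := by
    have : G = (d : ℝ) / 2 - gap + d * (d * δ) := by rw [hGdef, hgap]; ring
    rw [this]; linarith
  have hG0 : 0 ≤ G := by
    rw [hGdef]
    have : (μ : ℝ) ≤ d := by exact_mod_cast (Nat.div_le_self d 8)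
    have h4 : (0 : ℝ) ≤ d * (Real.log 7 / (4 * μ)) := by positivity
    have h5 : (0 : ℝ) ≤ d * (d * δ) := by positivity
    linarith [div_nonneg (sub_nonneg.2 this) (by norm_num : (0:ℝ) ≤ 2)]
  set G' : ℝ := (G + d / 2) / 2 with hG'
  have hG'1 : G < G' := by rw [hG']; linarith
  have hG'2 : G' < d / 2 := by rw [hG']; linarith
  have hG'0 : 0 ≤ G' := by linarith
  have hS : ∀ L : AddSubgroup (Fin d → ℝ), IsTile L → SS b δ L ≤ G := by
    intro L hL
    have := hC7 d 8 μ b δ L (by norm_num) (by omega) hcnt hδ0 hδ1 hL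
    norm_num at this
    rw [hGdef]
    convert this using 3
  obtain ⟨ε0, hε0, hL⟩ := hL7 d 8 b δ G G' hδ0 (by linarith) hd2 (by norm_num) hG'0 hG'1 hS
  -- choose ε
  set ε : ℝ := min (ε0 / 2) (min δ (((d : ℝ) / 2 - G') / (G' * d + 1))) with hε
  have hden : 0 < G' * d + 1 := by positivity
  have hεpos : 0 < ε := by
    refine lt_min (by linarith) (lt_min hδ0 (div_pos (by linarith) hden))
  have hεε0 : ε < ε0 := lt_of_le_of_lt (min_le_left _ _) (by linarith)
  have hεδ : ε ≤ δ := (min_le_right _ _).trans (min_le_left _ _)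
  have hε3 : ε ≤ ((d : ℝ) / 2 - G') / (G' * d + 1) := (min_le_right _ _).trans (min_le_right _ _)
  have hkey : G' * d * ε / 2 < d / 2 - G' := by
    rw [le_div_iff₀ hden] at hε3
    have : 0 ≤ G' * d * ε := by positivity
    nlinarith
  set s : ℝ := 1 / (1 + ε / 2) with hs
  have hs1 : s * (1 + ε / 2) = 1 := by rw [hs]; field_simp
  have hspos : 0 < s := by rw [hs]; positivity
  have hsle : s ≤ 1 := by rw [hs]; rw [div_le_one (by positivity)]; linarith
  obtain ⟨hsd0, hsd⟩ := key_ineq (by omega) hG'0 hεpos hs1 hkey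
  obtain ⟨hconv, hcomp, hint, hsymm, hvol0, hvolt⟩ :=
    hP2 d 8 b δ ε hδ0 (by linarith) hεpos hd2 (by norm_num)
  refine ⟨body b δ ε, hconv, hcomp, hint, hsymm, ?_⟩
  have hpack := hP3 d 8 b δ ε hδ0 (by linarith) hεpos hd2 (by norm_num)
  -- lattice packings
  have hL1 : deltaL (body b δ ε) ≤ volume (body b δ ε) / ENNReal.ofReal (1 - G' * ε) := by
    unfold deltaL
    refine iSup_le fun X => iSup_le fun hX => iSup_le fun hXp => ?_
    obtain ⟨bs, rfl⟩ := hX
    have hsep := (hpack _).1 hXp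
    have hcar : ((latGroup bs : AddSubgroup (Fin d → ℝ)) : Set (Fin d → ℝ)) =
        {x | ∃ c : Fin d → ℤ, x = ∑ i, (c i : ℝ) • bs i} := rfl
    rw [← hcar] at hsep ⊢
    obtain ⟨F, hFm, hFb, hFd, hFv⟩ := hL ε hεpos hεε0 (latGroup bs) (by
      intro v hv hv0
      have := hsep v hv 0 (latGroup bs).zero_mem hv0
      simpa using this)
    have hpos1 : 0 < 1 - G' * ε := lt_trans hsd0 hsd
    have hF0 : volume F ≠ 0 := by
      intro h0
      rw [h0] at hFv
      have := ENNReal.ofReal_pos.2 hpos1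
      exact absurd hFv (not_le.2 this)
    refine (hV2 d _ F (latGroup bs) (by omega) hcomp hFm hFb hF0 hFd).trans ?_
    exact ENNReal.div_le_div_left hFv _
  -- the non-lattice packing
  set τ : (Fin d → ℤ) → (Fin d → ℝ) := fun Z l => s * tau b f Z l with hτ
  have hsepτ : ∀ Z Z' : Fin d → ℤ, Z ≠ Z' → Sep b δ ε (τ Z - τ Z') := by
    intro Z Z' hZ
    have := hE2 d 8 b f δ ε s hf (fun j => le_trans (by omega) (hcnt j)) hδ0 (by linarith) hεpos
      hεδ hd2 (by norm_num) hs1 Z Z' hZ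
    exact this
  have hinj : Function.Injective τ := by
    intro Z Z' h
    by_contra hne
    obtain ⟨k, hk⟩ := hsepτ Z Z' hne
    rw [h, sub_self] at hk
    unfold Nk at hk
    rw [(hP1 d 8 b δ k hδ0 (by linarith) hd2 (by norm_num)).2.2.2.1] at hk
    simp at hk
    linarith
  have hpk : IsPacking (body b δ ε) (range τ) := by
    rw [hpack]
    rintro _ ⟨Z, rfl⟩ _ ⟨Z', rfl⟩ hne
    exact hsepτ Z Z' (fun h => hne (by rw [h]))
  have hT1 : volume (body b δ ε) / ENNReal.ofReal (s ^ d) ≤ deltaT (body b δ ε) := by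
    have h1 := hV3 d (body b δ ε) s 1 τ (by omega) hcomp hconv hspos (by
      intro Z i
      have : τ Z i - s * Z i = s * (if f (par b Z) (b i) then 1 / 2 else 0) := by
        simp only [hτ, tau]; ring
      rw [this, abs_mul, abs_of_pos hspos]
      have h2 : |(if f (par b Z) (b i) then (1 / 2 : ℝ) else 0)| ≤ 1 := by
        split_ifs <;> norm_num
      calc s * |(if f (par b Z) (b i) then (1 / 2 : ℝ) else 0)| ≤ 1 * 1 := by gcongr
        _ = 1 := by norm_num) hinj hpk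
    refine h1.trans ?_
    unfold deltaT
    exact le_iSup_of_le (range τ) (le_iSup_of_le hpk le_rfl)
  refine lt_of_le_of_lt hL1 (lt_of_lt_of_le ?_ hT1)
  have hlt : ENNReal.ofReal (s ^ d) < ENNReal.ofReal (1 - G' * ε) := by
    rw [ENNReal.ofReal_lt_ofReal_iff (lt_trans hsd0 hsd)]
    exact hsd
  exact ENNReal.div_lt_div_left hvol0 hvolt hlt

lemma log_seven : Real.log 7 < 1.946 := by
  have h0 : (7 : ℝ) ^ 135 < 2 ^ 379 := by
    have e : (2 : ℝ) ^ 379 = 2 ^ 190 * 2 ^ 189 := by rw [← pow_add]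
    rw [e]
    norm_num
  have h1 : Real.log ((7 : ℝ) ^ 135) < Real.log ((2 : ℝ) ^ 379) :=
    Real.log_lt_log (by positivity) h0
  rw [Real.log_pow, Real.log_pow] at h1
  have h2 := Real.log_two_lt_d9
  push_cast at h1
  linarith

end Pool.Agent.Y952.TP
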