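import Pool.Agent.Y952.TP.Pot

set_option autoImplicit false

/-! The potential argument with a few additional letters. -/

namespace Pool.Agent.Y952.TP

lemma path2 (μ : ℕ) (w : ℕ → Fin 8) (t : ℕ) : ∃ l : List ℕ, l.Pairwise (fun a b => b ≤ a) ∧
    (l : Multiset ℕ) = (Finset.univ : Finset (Fin 8)).val.map (fun j => min (X w t j) μ) ∧
    ∑ s ∈ Finset.range t, Real.log (∑ j ∈ Finset.univ.erase (w s), E (min (X w s j) μ)) ≤
      uu 0 l + ((∑ j, (X w t j - μ) : ℕ) : ℝ) * (2 * μ + Real.log 7) := by
  induction t with
  | zero =>
    refine ⟨List.replicate 8 0, ?_, ?_, ?_⟩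
    · simp
    · have : (fun j => min (X w 0 j) μ) = fun _ => 0 := by
        funext j; simp [X]
      rw [this]
      rfl
    · have h7 : 0 ≤ Real.log 7 := Real.log_nonneg (by norm_num)
      simp only [Finset.range_zero, Finset.sum_empty]
      have : uu 0 (List.replicate 8 0) = 0 := by simp [uu, List.replicate]
      rw [this]
      positivity
  | succ t ih =>
    obtain ⟨l, hl1, hl2, hl3⟩ := ih
    set i := w t with hi
    have hval : (Finset.univ : Finset (Fin 8)).val = i ::ₘ (Finset.univ.erase i).val := by
      have h1 : (Finset.univ : Finset (Fin 8)) = insert i (Finset.univ.erase i) :=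
        (Finset.insert_erase (Finset.mem_univ i)).symm
      conv_lhs => rw [h1]
      exact Finset.insert_val_of_notMem (Finset.notMem_erase i _)
    have hX : ∀ j, j ≠ i → X w (t + 1) j = X w t j := by
      intro j hj
      rw [X_succ, if_neg (fun h => hj h.symm), add_zero]
    have hXi : X w (t + 1) i = X w t i + 1 := by
      rw [X_succ, if_pos rfl]
    have hsumX : ∑ j, (X w (t + 1) j - μ) =
        (X w t i + 1 - μ) + ∑ j ∈ Finset.univ.erase i, (X w t j - μ) := by
      rw [← Finset.add_sum_erase _ _ (Finset.mem_univ i), hXi]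
      congr 1
      refine Finset.sum_congr rfl fun j hj => ?_
      rw [hX j (Finset.ne_of_mem_erase hj)]
    have hsumX0 : ∑ j, (X w t j - μ) =
        (X w t i - μ) + ∑ j ∈ Finset.univ.erase i, (X w t j - μ) :=
      (Finset.add_sum_erase _ _ (Finset.mem_univ i)).symm
    rcases Nat.lt_or_ge (X w t i) μ with hlt | hge
    · -- a regular letter
      have hmin : min (X w t i) μ = X w t i := min_eq_left hlt.le
      have hmem : X w t i ∈ l := by
        have : X w t i ∈ (l : Multiset ℕ) := by
          rw [hl2, Multiset.mem_map]
          exact ⟨i, Finset.mem_univ_val i, hmin⟩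
        exact this
      obtain ⟨as, bs, hab, hnot⟩ := List.eq_append_cons_of_mem hmem
      have hpw := hl1
      rw [hab, List.pairwise_append] at hpw
      obtain ⟨p1, p2, p3⟩ := hpw
      rw [List.pairwise_cons] at p2
      have hrest : ((as ++ bs : List ℕ) : Multiset ℕ) =
          (Finset.univ.erase i).val.map (fun j => min (X w t j) μ) := by
        have h1 : ((as ++ X w t i :: bs : List ℕ) : Multiset ℕ) =
            X w t i ::ₘ ((as ++ bs : List ℕ) : Multiset ℕ) := by
          rw [Multiset.cons_coe, Multiset.coe_eq_coe]
          exact List.perm_middle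
        rw [hab, h1, hval, Multiset.map_cons, hmin] at hl2
        exact (Multiset.cons_inj_right _).1 hl2
      refine ⟨as ++ (X w t i + 1) :: bs, ?_, ?_, ?_⟩
      · rw [List.pairwise_append, List.pairwise_cons]
        refine ⟨p1, ⟨fun y hy => (p2.1 y hy).trans (Nat.le_succ _), p2.2⟩, ?_⟩
        intro a ha y hy
        rw [List.mem_cons] at hy
        rcases hy with rfl | hy
        · have h1 := p3 a ha _ List.mem_cons_self
          have h2 : a ≠ X w t i := fun h => hnot (h ▸ ha)
          omega
        · exact p3 a ha y (List.mem_cons_of_mem _ hy)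
      · have h1 : ((as ++ (X w t i + 1) :: bs : List ℕ) : Multiset ℕ) =
            (X w t i + 1) ::ₘ ((as ++ bs : List ℕ) : Multiset ℕ) := by
          rw [Multiset.cons_coe, Multiset.coe_eq_coe]
          exact List.perm_middle
        rw [h1, hrest, hval, Multiset.map_cons]
        have h2 : min (X w (t + 1) i) μ = X w t i + 1 := by
          rw [hXi]; omega
        rw [h2]
        congr 1
        apply Multiset.map_congr rfl
        intro j hj
        have hj' : j ≠ i := (Finset.mem_erase.1 (Finset.mem_def.2 hj)).1
        rw [hX j hj']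
      · rw [Finset.sum_range_succ]
        have h1 := L2 as 0 (X w t i) bs le_rfl p2.1
        have h2 : (0 : ℝ) + (as.map E).sum + (bs.map E).sum =
            ∑ j ∈ Finset.univ.erase i, E (min (X w t j) μ) := by
          have h3 : (((as ++ bs : List ℕ) : Multiset ℕ).map E).sum =
              (((Finset.univ.erase i).val.map (fun j => min (X w t j) μ)).map E).sum := by
            rw [hrest]
          rw [Multiset.map_coe, Multiset.sum_coe, List.map_append, List.sum_append,
            Multiset.map_map] at h3
          rw [zero_add, h3]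
          rfl
        rw [h2] at h1
        rw [hab] at hl3
        have h4 : ∑ j, (X w (t + 1) j - μ) = ∑ j, (X w t j - μ) := by
          rw [hsumX, hsumX0]
          congr 1
          omega
        rw [h4]
        linarith
    · -- an additional letter
      refine ⟨l, hl1, ?_, ?_⟩
      · rw [hl2]
        apply Multiset.map_congr rfl
        intro j _
        by_cases hj : j = i
        · rw [hj, hXi]; omega
        · rw [hX j hj]
      · rw [Finset.sum_range_succ]
        have h1 : Real.log (∑ j ∈ Finset.univ.erase i, E (min (X w t j) μ)) ≤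
            2 * μ + Real.log 7 := by
          have h2 : ∑ j ∈ Finset.univ.erase i, E (min (X w t j) μ) ≤ 7 * E μ := by
            have h3 : ∑ j ∈ Finset.univ.erase i, E (min (X w t j) μ) ≤
                ∑ _j ∈ Finset.univ.erase i, E μ :=
              Finset.sum_le_sum fun j _ => E_mono (min_le_right _ _)
            rw [Finset.sum_const, Finset.card_erase_of_mem (Finset.mem_univ _), Finset.card_univ,
              Fintype.card_fin] at h3
            simpa using h3
          have h4 : 0 < ∑ j ∈ Finset.univ.erase i, E (min (X w t j) μ) := by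
            apply Finset.sum_pos (fun j _ => E_pos _)
            rw [← Finset.card_pos, Finset.card_erase_of_mem (Finset.mem_univ _),
              Finset.card_univ, Fintype.card_fin]
            norm_num
          have h5 := Real.log_le_log h4 h2
          rw [Real.log_mul (by norm_num) (E_pos μ).ne'] at h5
          have h6 : Real.log (E μ) = 2 * μ := by unfold E; exact Real.log_exp _
          linarith
        have h4 : ∑ j, (X w (t + 1) j - μ) = ∑ j, (X w t j - μ) + 1 := by
          rw [hsumX, hsumX0]
          omega
        rw [h4]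
        push_cast at hl3 ⊢
        linarith

lemma uu_le (μ : ℕ) (hμ : 6 ≤ μ) :
    uu 0 (List.replicate 8 μ) ≤ (μ : ℝ) * (14 * μ + 10.476) := by
  have hμR : (6 : ℝ) ≤ μ := by exact_mod_cast hμ
  set e := E μ with he
  have he0 : 0 < e := E_pos μ
  have hE : (100000 : ℝ) ≤ e := by
    have h1 : E 6 ≤ e := E_mono hμ
    have h2 : (100000 : ℝ) ≤ E 6 := by
      unfold E
      have h3 : (2.7 : ℝ) ≤ Real.exp 1 := by
        have := Real.exp_one_gt_d9
        linarith
      have h4 : Real.exp (2 * (6 : ℕ)) = (Real.exp 1) ^ 12 := by
        rw [← Real.exp_nat_mul]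
        norm_num
      rw [h4]
      calc (100000 : ℝ) ≤ 2.7 ^ 12 := by norm_num
        _ ≤ _ := by gcongr
    linarith
  have hlog : Real.log e = 2 * μ := by rw [he]; unfold E; exact Real.log_exp _
  have hr : ∀ r c : ℝ, 1 ≤ r → c ≤ 6 * r → 0 ≤ c → Real.log (r * e + c) ≤
      Real.log r + (2 * μ + 0.0001) := by
    intro r c h1 h2 h3
    have h4 : r * e + c ≤ r * e * Real.exp 0.0001 := by
      have h5 : (0.0001 : ℝ) + 1 ≤ Real.exp 0.0001 := Real.add_one_le_exp _
      have h6 : r * e * (0.0001 + 1) ≤ r * e * Real.exp 0.0001 := by gcongr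
      have h7 : 6 * r ≤ r * e * 0.0001 := by nlinarith
      linarith
    have h5 := Real.log_le_log (by positivity) h4
    rw [Real.log_mul (by positivity) (Real.exp_pos _).ne', Real.log_mul (by positivity) he0.ne',
      Real.log_exp, hlog] at h5
    linarith
  have h35 : Real.log 7 + Real.log 5040 ≤ 10.475 := by
    have h0 : (35280 : ℝ) ^ 9 < 2 ^ 136 := by norm_num
    have h1 := Real.log_lt_log (by positivity) h0
    rw [Real.log_pow, Real.log_pow] at h1
    have h2 := Real.log_two_lt_d9
    rw [← Real.log_mul (by norm_num) (by norm_num)]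
    norm_num
    push_cast at h1
    linarith
  have h5040 : Real.log 5040 = Real.log 1 + Real.log 2 + Real.log 3 + Real.log 4 + Real.log 5 +
      Real.log 6 + Real.log 7 := by
    rw [← Real.log_mul (by norm_num) (by norm_num), ← Real.log_mul (by norm_num) (by norm_num),
      ← Real.log_mul (by norm_num) (by norm_num), ← Real.log_mul (by norm_num) (by norm_num),
      ← Real.log_mul (by norm_num) (by norm_num), ← Real.log_mul (by norm_num) (by norm_num)]
    norm_num
  have a1 := hr 1 6 le_rfl (by norm_num) (by norm_num)
  have a2 := hr 2 5 (by norm_num) (by norm_num) (by norm_num)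
  have a3 := hr 3 4 (by norm_num) (by norm_num) (by norm_num)
  have a4 := hr 4 3 (by norm_num) (by norm_num) (by norm_num)
  have a5 := hr 5 2 (by norm_num) (by norm_num) (by norm_num)
  have a6 := hr 6 1 (by norm_num) (by norm_num) (by norm_num)
  have a7 := hr 7 0 (by norm_num) (by norm_num) (by norm_num)
  have hval : uu 0 (List.replicate 8 μ) = μ * (Real.log 7 + Real.log (1 * e + 6) +
      Real.log (2 * e + 5) + Real.log (3 * e + 4) + Real.log (4 * e + 3) + Real.log (5 * e + 2) +
      Real.log (6 * e + 1) + Real.log (7 * e + 0)) := by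
    simp only [List.replicate, uu, List.length_cons, List.length_nil, ← he]
    push_cast
    have b0 : (0 : ℝ) + 7 = 7 := by norm_num
    have b1 : (0 : ℝ) + e + 6 = 1 * e + 6 := by ring
    have b2 : (0 : ℝ) + e + e + 5 = 2 * e + 5 := by ring
    have b3 : (0 : ℝ) + e + e + e + 4 = 3 * e + 4 := by ring
    have b4 : (0 : ℝ) + e + e + e + e + 3 = 4 * e + 3 := by ring
    have b5 : (0 : ℝ) + e + e + e + e + e + 2 = 5 * e + 2 := by ring
    have b6 : (0 : ℝ) + e + e + e + e + e + e + 1 = 6 * e + 1 := by ring
    have b7 : (0 : ℝ) + e + e + e + e + e + e + e + 0 = 7 * e + 0 := by ring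
    rw [b0, b1, b2, b3, b4, b5, b6, b7]
    ring
  rw [hval]
  apply mul_le_mul_of_nonneg_left _ (by positivity)
  linarith

end Pool.Agent.Y952.TP
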