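import Pool.Agent.Y952.TP.Core48
import Pool.Agent.Y952.TP.Pot2
import Pool.Agent.Y952.TP.Main64

set_option autoImplicit false

/-! The estimate for lattice tilings with eight blocks of at least `μ ≥ 6` coordinates. -/

open MeasureTheory Filter Topology Set
open scoped ENNReal

namespace Pool.Agent.Y952.TP

open H947TP

theorem SS_le2 (h3 : St_C3) (hC4 : St_C4) (hP1 : St_P1) (hB3 : St_B3) (μ D e : ℕ)
    (b : Fin D → Fin 8) (δ : ℝ) (L : AddSubgroup (Fin D → ℝ)) (hμ : 1 ≤ μ)
    (hcnt : ∀ j, μ ≤ cnt b j) (he : ∑ j, (cnt b j - μ) = e) (hδ : 0 < δ) (hδ' : δ ≤ 1 / 2)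
    (hL : IsTile L) :
    SS b δ L ≤ (uu 0 (List.replicate 8 μ) + e * (2 * μ + Real.log 7)) / (4 * μ) +
      D * (D * δ) := by
  classical
  obtain ⟨σ, hσ⟩ := h3 D L hL
  have hμ0 : (0 : ℝ) < μ := by exact_mod_cast hμ
  have hbc : ∀ k j, before b σ k j ≤ cnt b j := by
    intro k j
    unfold before cnt
    apply Finset.card_le_card
    intro l hl
    rw [Finset.mem_filter] at hl ⊢
    exact ⟨hl.1, hl.2.1⟩
  have hterm : ∀ k, Ex L k (Phi b δ k) ≤
      Real.log (∑ j ∈ Finset.univ.erase (b k), E (min (X (wd b σ) (σ k) j) μ)) / (4 * μ) +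
        D * δ := by
    intro k
    have h := C6L hC4 hP1 hB3 D 8 μ b δ L σ k (by norm_num) hμ hcnt hδ hδ' hL
      (hσ k).1 (hσ k).2
    refine h.trans ?_
    have h5 : ∑ j ∈ Finset.univ.erase (b k),
        Real.exp (2 * μ * ((before b σ k j : ℝ) / cnt b j)) ≤
        ∑ j ∈ Finset.univ.erase (b k), E (min (X (wd b σ) (σ k) j) μ) := by
      refine Finset.sum_le_sum fun j _ => ?_
      unfold E
      apply Real.exp_le_exp.2
      rw [← before_eq]
      have hc0 : (0 : ℝ) < cnt b j := by exact_mod_cast (hμ.trans (hcnt j))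
      have hc1 : (μ : ℝ) ≤ cnt b j := by exact_mod_cast hcnt j
      have hb1 : (before b σ k j : ℝ) ≤ cnt b j := by exact_mod_cast hbc k j
      have hb0 : (0 : ℝ) ≤ before b σ k j := Nat.cast_nonneg _
      have e1 : 2 * (μ : ℝ) * ((before b σ k j : ℝ) / cnt b j) ≤ 2 * (before b σ k j : ℝ) := by
        rw [mul_div_assoc', div_le_iff₀ hc0]
        nlinarith
      have e2 : 2 * (μ : ℝ) * ((before b σ k j : ℝ) / cnt b j) ≤ 2 * (μ : ℝ) := by
        rw [mul_div_assoc', div_le_iff₀ hc0]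
        nlinarith
      rw [Nat.cast_min]
      rcases min_choice (before b σ k j : ℝ) (μ : ℝ) with h | h <;> rw [h]
      · exact e1
      · exact e2
    have h6 : 0 < ∑ j ∈ Finset.univ.erase (b k),
        Real.exp (2 * μ * ((before b σ k j : ℝ) / cnt b j)) := by
      apply Finset.sum_pos (fun j _ => Real.exp_pos _)
      rw [← Finset.card_pos, Finset.card_erase_of_mem (Finset.mem_univ _),
        Finset.card_univ, Fintype.card_fin]
      norm_num
    have h7 := Real.log_le_log h6 h5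
    have h8 := div_le_div_of_nonneg_right h7 (show (0 : ℝ) ≤ 4 * μ by positivity)
    linarith
  obtain ⟨l, -, hl2, hl3⟩ := path2 μ (wd b σ) D
  have hl : l = List.replicate 8 μ := by
    have hx : (fun j => min (X (wd b σ) D j) μ) = fun _ => μ := by
      funext j
      rw [← cnt_eq]
      exact min_eq_right (hcnt j)
    rw [hx] at hl2
    rw [List.eq_replicate_iff]
    constructor
    · have := congrArg Multiset.card hl2
      simpa using this
    · intro y hy
      have h1 : y ∈ (l : Multiset ℕ) := hy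
      rw [hl2, Multiset.mem_map] at h1
      obtain ⟨_, _, h⟩ := h1
      exact h.symm
  have hee : ∑ j, (X (wd b σ) D j - μ) = e := by
    rw [← he]
    refine Finset.sum_congr rfl fun j _ => ?_
    rw [← cnt_eq]
  rw [hl, hee] at hl3
  have hsum : ∑ k : Fin D, Real.log (∑ j ∈ Finset.univ.erase (b k),
      E (min (X (wd b σ) (σ k) j) μ)) =
      ∑ s ∈ Finset.range D,
        Real.log (∑ j ∈ Finset.univ.erase (wd b σ s), E (min (X (wd b σ) s j) μ)) := by
    rw [Finset.sum_range (fun s => Real.log (∑ j ∈ Finset.univ.erase (wd b σ s),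
      E (min (X (wd b σ) s j) μ)))]
    rw [← Equiv.sum_comp σ (fun t : Fin D => Real.log (∑ j ∈ Finset.univ.erase (wd b σ t),
      E (min (X (wd b σ) t j) μ)))]
    refine Finset.sum_congr rfl fun k _ => ?_
    rw [wd_apply]
  unfold SS
  have h1 := Finset.sum_le_sum (fun k (_ : k ∈ (Finset.univ : Finset (Fin D))) => hterm k)
  rw [Finset.sum_add_distrib, ← Finset.sum_div, hsum] at h1
  simp only [Finset.sum_const, Finset.card_univ, Fintype.card_fin, nsmul_eq_mul] at h1
  have h2 := div_le_div_of_nonneg_right hl3 (show (0 : ℝ) ≤ 4 * μ by positivity)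
  linarith

theorem main52 (d : ℕ) (hd' : (48 ≤ d ∧ d ≤ 52) ∨ 56 ≤ d) :
    ∃ K : Set (Fin d → ℝ), Convex ℝ K ∧ IsCompact K ∧
      (interior K).Nonempty ∧ (∀ x ∈ K, -x ∈ K) ∧ deltaL K < deltaT K := by
  obtain ⟨μ, e, hμe, he8, hμ6, hcase⟩ : ∃ μ e : ℕ, d = 8 * μ + e ∧ e < 8 ∧ 6 ≤ μ ∧
      (e ≤ 4 ∨ 7 ≤ μ) := ⟨d / 8, d % 8, by omega, by omega, by omega, by omega⟩
  have hdμ : d / 8 = μ := by omega
  have hcnt : ∀ j, μ ≤ cnt (blk d) j := by
    intro j
    have := cnt_blk d j
    omega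
  have hsum : ∑ j, cnt (blk d) j = d := by
    classical
    unfold cnt
    rw [← Finset.card_eq_sum_card_fiberwise (fun x _ => Finset.mem_univ _)]
    simp
  have hext : ∑ j, (cnt (blk d) j - μ) = e := by
    have h1 : ∑ j, (cnt (blk d) j - μ) + ∑ _j : Fin 8, μ = ∑ j, cnt (blk d) j := by
      rw [← Finset.sum_add_distrib]
      refine Finset.sum_congr rfl fun j _ => ?_
      have := hcnt j
      omega
    rw [hsum] at h1
    simp at h1
    omega
  have hμR : (6 : ℝ) ≤ μ := by exact_mod_cast hμ6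
  have hu := uu_le μ hμ6
  have hlog := log_seven
  have hlog0 : 0 < Real.log 7 := Real.log_pos (by norm_num)
  have he0 : (0 : ℝ) ≤ e := Nat.cast_nonneg _
  set V : ℝ := (uu 0 (List.replicate 8 μ) + e * (2 * μ + Real.log 7)) / (4 * μ) with hV
  have hdR : (d : ℝ) = 8 * μ + e := by rw [hμe]; push_cast; ring
  have hVlt : V < (d : ℝ) / 2 := by
    rw [hV, div_lt_iff₀ (by positivity), hdR]
    have h5 : (e : ℝ) * Real.log 7 ≤ e * 1.946 := mul_le_mul_of_nonneg_left hlog.le he0
    have h6 : (μ : ℝ) * (14 * μ + 10.476) + e * 1.946 < 16 * (μ : ℝ) ^ 2 := by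
      rcases hcase with h | h
      · have h4 : (e : ℝ) ≤ 4 := by exact_mod_cast h
        nlinarith
      · have h7 : (7 : ℝ) ≤ μ := by exact_mod_cast h
        have h8 : (e : ℝ) ≤ 7 := by exact_mod_cast (by omega : e ≤ 7)
        nlinarith
    nlinarith
  have hd0 : (0 : ℝ) < d := by rw [hdR]; linarith
  set gap : ℝ := (d : ℝ) / 2 - V with hgap
  have hgap0 : 0 < gap := by rw [hgap]; linarith
  set δ : ℝ := min (1 / 2) (gap / (2 * (d * d))) with hδ
  have hδ0 : 0 < δ := lt_min (by norm_num) (by positivity)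
  have hδ1 : δ ≤ 1 / 2 := min_le_left _ _
  have hδ2 : (d : ℝ) * (d * δ) ≤ gap / 2 := by
    have h : δ ≤ gap / (2 * (d * d)) := min_le_right _ _
    have h3 : (d : ℝ) * (d * δ) ≤ d * (d * (gap / (2 * (d * d)))) := by gcongr
    refine h3.trans (le_of_eq ?_)
    field_simp
  refine main_core P1 (P2 P1) (P3 P1) (E2 E1 P1) (V2 V1) (V3 V1) allL7 G1 d (by omega)
    (blk d) (fun j => (show 1 ≤ μ by omega).trans (hcnt j)) δ (max 0 (V + d * (d * δ))) hδ0 hδ1
    (le_max_left _ _) (max_lt (by linarith) (by linarith)) ?_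
  intro L hL
  refine le_max_of_le_right ?_
  exact SS_le2 (C3 allB5 B3 C1 (C2 B3)) C4 P1 B3 μ d e (blk d) δ L (by omega) hcnt hext
    hδ0 hδ1 hL

end Pool.Agent.Y952.TP
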